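import Pool.Agent.Helper30.TR.Spec

/-! TR (helper30), part `GD`: many good points. -/

set_option autoImplicit false

namespace Pool.Agent.Helper81.TR.GD

open MeasureTheory Set Pool.Agent.Helper30.TriFace Pool.Agent.Helper30.TR

/-- The bad set. -/
def Bad (n : ℕ) (σ : ℝ) (s0 : ℤ) : Set (ℝ × ℝ) :=
  {x | x ∈ Ds (1 / 10) ∧ ∀ s ∈ Finset.Ioc s0 (s0 + (n / 12 : ℕ)), hh (th n s) x ∉ YY n σ s}

lemma bad_of_not_hit {n : ℕ} {σ : ℝ} {s0 : ℤ} {x : ℝ × ℝ} (hx : x ∈ Ds (1 / 10))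
    (h : ¬ Hit n σ s0 x) : x ∈ Bad n σ s0 := by
  refine ⟨hx, fun s hs hY => h ?_⟩
  obtain ⟨m, h1, h2, h3, h4⟩ := hY
  rw [Finset.mem_Ioc] at hs
  exact ⟨s, m, hs.1, hs.2, h1, h2, h3, h4⟩

theorem main (hSM : S_SM) (hDA : S_DA) : Pool.Agent.Helper30.TR.S_GD := by
  obtain ⟨n0, hn0⟩ := hSM
  refine ⟨max n0 2000, fun n hn => ?_⟩
  have hn1 : n0 ≤ n := le_trans (le_max_left _ _) hn
  have hn2 : (2000 : ℝ) ≤ n := by exact_mod_cast le_trans (le_max_right _ _) hn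
  set σ : ℝ := 2100 / (n : ℝ) ^ 2 with hσ
  have hσ0 : 0 ≤ σ := by positivity
  have hσ1 : 10 * σ ≤ 1 / 100 := by
    rw [hσ]
    have h1 : (2000 : ℝ) ^ 2 ≤ (n : ℝ) ^ 2 := pow_le_pow_left₀ (by norm_num) hn2 2
    have h2 : (0 : ℝ) < (n : ℝ) ^ 2 := by positivity
    rw [mul_div_assoc', div_le_iff₀ h2]
    nlinarith
  have hfin : ∀ s0 : ℤ, volume (Bad n σ s0) ≠ ⊤ ∧
      (volume (Bad n σ s0)).toReal ≤ 1 / 10 * ar (Ds (1 / 10)) := by
    intro s0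
    refine ⟨?_, hn0 n hn1 s0⟩
    have h1 : volume (Ds (1 / 10)) ≠ ⊤ := by
      intro h
      have h2 := hDA (1 / 10) (by norm_num)
      unfold ar at h2
      rw [h, ENNReal.toReal_top] at h2
      have := Real.pi_pos
      nlinarith
    exact measure_ne_top_of_subset (fun x hx => hx.1) h1
  have hG : volume {x | Gd n x} ≠ ⊤ := by
    have h1 : volume (Ds (1 / 10)) ≠ ⊤ := by
      intro h
      have h2 := hDA (1 / 10) (by norm_num)
      unfold ar at h2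
      rw [h, ENNReal.toReal_top] at h2
      have := Real.pi_pos
      nlinarith
    exact measure_ne_top_of_subset (fun x hx => hx.1) h1
  have hsub : Ds (9 / 100) ⊆ (({x | Gd n x} ∪ (fun x : ℝ × ℝ => x + (10 * σ, 0)) ⁻¹' Bad n σ 0) ∪
      Bad n σ (n / 3 : ℕ)) ∪ Bad n σ (2 * (n / 3 : ℕ)) := by
    intro x hx
    have hx' : x.1 ^ 2 + x.2 ^ 2 ≤ (9 / 100) ^ 2 := hx
    have hx1 : x ∈ Ds (1 / 10) := by
      show x.1 ^ 2 + x.2 ^ 2 ≤ (1 / 10) ^ 2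
      norm_num at hx' ⊢
      linarith
    have hxa : |x.1| ≤ 9 / 100 := by
      apply abs_le_of_sq_le_sq _ (by norm_num)
      nlinarith [sq_nonneg x.2]
    have hx2 : ((x.1 + 10 * σ, x.2) : ℝ × ℝ) ∈ Ds (1 / 10) := by
      show (x.1 + 10 * σ) ^ 2 + x.2 ^ 2 ≤ (1 / 10) ^ 2
      have h1 := (abs_le.1 hxa).2
      have h2 := (abs_le.1 hxa).1
      nlinarith [mul_nonneg hσ0 (sub_nonneg.2 h1)]
    by_cases h1 : Hit n σ 0 (x.1 + 10 * σ, x.2)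
    · by_cases h2 : Hit n σ (n / 3 : ℕ) x
      · by_cases h3 : Hit n σ (2 * (n / 3 : ℕ)) x
        · exact Or.inl (Or.inl (Or.inl ⟨hx1, h1, h2, h3⟩))
        · exact Or.inr (bad_of_not_hit hx1 h3)
      · exact Or.inl (Or.inr (bad_of_not_hit hx1 h2))
    · refine Or.inl (Or.inl (Or.inr ?_))
      have h4 : x + (10 * σ, 0) = (x.1 + 10 * σ, x.2) := by
        ext <;> simp
      show x + (10 * σ, 0) ∈ Bad n σ 0
      rw [h4]
      exact bad_of_not_hit hx2 h1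
  have hle : volume (Ds (9 / 100)) ≤ ((volume {x | Gd n x} + volume (Bad n σ 0)) +
      volume (Bad n σ (n / 3 : ℕ))) + volume (Bad n σ (2 * (n / 3 : ℕ))) := by
    refine (measure_mono hsub).trans ?_
    refine (measure_union_le _ _).trans (add_le_add_left ?_ _)
    refine (measure_union_le _ _).trans (add_le_add_left ?_ _)
    refine (measure_union_le _ _).trans (add_le_add_right ?_ _)
    rw [measure_preimage_add_right]
  have hle' : ar (Ds (9 / 100)) ≤ ((ar {x | Gd n x} + ar (Bad n σ 0)) +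
      ar (Bad n σ (n / 3 : ℕ))) + ar (Bad n σ (2 * (n / 3 : ℕ))) := by
    unfold ar
    have h1 := hfin 0
    have h2 := hfin (n / 3 : ℕ)
    have h3 := hfin (2 * (n / 3 : ℕ))
    rw [← ENNReal.toReal_add hG h1.1, ← ENNReal.toReal_add (ENNReal.add_ne_top.2 ⟨hG, h1.1⟩) h2.1,
      ← ENNReal.toReal_add (ENNReal.add_ne_top.2 ⟨ENNReal.add_ne_top.2 ⟨hG, h1.1⟩, h2.1⟩) h3.1]
    exact ENNReal.toReal_mono (ENNReal.add_ne_top.2 ⟨ENNReal.add_ne_top.2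
      ⟨ENNReal.add_ne_top.2 ⟨hG, h1.1⟩, h2.1⟩, h3.1⟩) hle
  have b0 : ar (Bad n σ 0) ≤ 1 / 10 * ar (Ds (1 / 10)) := (hfin 0).2
  have b1 : ar (Bad n σ (n / 3 : ℕ)) ≤ 1 / 10 * ar (Ds (1 / 10)) := (hfin _).2
  have b2 : ar (Bad n σ (2 * (n / 3 : ℕ))) ≤ 1 / 10 * ar (Ds (1 / 10)) := (hfin _).2
  rw [hDA _ (by norm_num)] at hle' b0 b1 b2
  have hpi := Real.pi_gt_three
  nlinarith

end Pool.Agent.Helper81.TR.GD
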